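import Mathlib
import Pool.Agent.U401.DD.Stm

set_option autoImplicit false

open MeasureTheory ProbabilityTheory Set Filter Topology

namespace Pool.Agent.U401.DD

namespace PRNaux

/-- concentration of the sum of independent variables -/
theorem conc {Ω : Type} [MeasurableSpace Ω] (μ : Measure Ω) [IsProbabilityMeasure μ]
    (X W : Ω → ℝ) (hX : Measurable X) (hW : Measurable W) (hind : IndepFun X W μ) (D' : ℝ)
    (hD : ∀ r s, r ≤ s → μ {ω | W ω ∈ Icc r s} ≤ ENNReal.ofReal (D' * (s - r))) (d : ℝ)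
    (hd : 0 ≤ d) : μ {ω | |W ω + X ω| < d} ≤ ENNReal.ofReal (D' * (2 * d)) := by
  set S : Set (ℝ × ℝ) := {p | |p.2 + p.1| < d} with hS
  have hSm : MeasurableSet S :=
    measurableSet_lt (by fun_prop) measurable_const
  have hpair : Measurable fun ω => (X ω, W ω) := hX.prodMk hW
  have h1 : μ {ω | |W ω + X ω| < d} = (μ.map fun ω => (X ω, W ω)) S := by
    rw [Measure.map_apply hpair hSm]
    rfl
  rw [h1, (indepFun_iff_map_prod_eq_prod_map_map hX.aemeasurable hW.aemeasurable).1 hind,
    Measure.prod_apply hSm]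
  have hbd : ∀ x : ℝ, (μ.map W) (Prod.mk x ⁻¹' S) ≤ ENNReal.ofReal (D' * (2 * d)) := by
    intro x
    have hsub : Prod.mk x ⁻¹' S ⊆ Icc (-d - x) (d - x) := by
      intro w hw
      have : |w + x| < d := hw
      rw [abs_lt] at this
      exact ⟨by linarith [this.1], by linarith [this.2]⟩
    refine (measure_mono hsub).trans ?_
    rw [Measure.map_apply hW measurableSet_Icc]
    have h2 := hD (-d - x) (d - x) (by linarith)
    have e : d - x - (-d - x) = 2 * d := by ring
    rw [e] at h2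
    exact h2
  calc ∫⁻ x, (μ.map W) (Prod.mk x ⁻¹' S) ∂(μ.map X)
      ≤ ∫⁻ _, ENNReal.ofReal (D' * (2 * d)) ∂(μ.map X) := lintegral_mono hbd
    _ = ENNReal.ofReal (D' * (2 * d)) := by
        have : IsProbabilityMeasure (μ.map X) := Measure.isProbabilityMeasure_map hX.aemeasurable
        rw [lintegral_const, measure_univ, mul_one]

/-- total coefficient of the plane `j` -/
noncomputable def ee (κ l m : Ix) (j : ℕ) : ℝ :=
  (if κ.1 = j then sg κ.2 else 0) + (if l.1 = j then sg l.2 else 0) +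
    (if m.1 = j then sg m.2 else 0)

/-- the planes -/
def PP (κ l m : Ix) : Finset ℕ := {κ.1, l.1, m.1}

theorem Lm_eq (om : ℕ → ℝ) (κ l m : Ix) :
    Lm om κ l m = ∑ j ∈ PP κ l m, ee κ l m j * om j := by
  have h : ∀ a : Ix, a.1 ∈ PP κ l m →
      ∑ j ∈ PP κ l m, (if a.1 = j then sg a.2 else 0) * om j = sg a.2 * om a.1 := by
    intro a ha
    rw [Finset.sum_eq_single_of_mem a.1 ha]
    · rw [if_pos rfl]
    · intro b _ hb
      rw [if_neg (fun h => hb h.symm), zero_mul]
  unfold Lm fr ee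
  simp only [add_mul, Finset.sum_add_distrib]
  rw [h κ (by simp [PP]), h l (by simp [PP]), h m (by simp [PP])]

theorem ee_ge (κ l m : Ix) (hr : ¬ res κ l m) (p : ℕ) (hp : p ∈ PP κ l m) :
    1 ≤ |ee κ l m p| := by
  obtain ⟨k1, b1⟩ := κ
  obtain ⟨k2, b2⟩ := l
  obtain ⟨k3, b3⟩ := m
  simp only [res, bar, Prod.mk.injEq, not_or, not_and, PP, Finset.mem_insert,
    Finset.mem_singleton] at hr hp
  unfold ee
  simp only
  by_cases h1 : k1 = p <;> by_cases h2 : k2 = p <;> by_cases h3 : k3 = p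
  all_goals cases b1 <;> cases b2 <;> cases b3 <;> simp_all [sg]
  all_goals first | omega | norm_num

theorem mu_ge {lam : ℕ → ℝ} (hlam : ∀ n, 0 < lam n) (j : ℕ) : (j : ℝ) + 1 ≤ mu lam j := by
  unfold mu gg
  have h1 := hlam (2 * j)
  have h2 := hlam (2 * j + 1)
  have h3 : (0 : ℝ) ≤ j := Nat.cast_nonneg j
  nlinarith

end PRNaux

open PRNaux in
theorem t_PRN : S_PRN := by
  classical
  intro lam hlam σ D hσ hD0 Ω _ μ _ Z hZ hI hDens
  set b := σ - 20 with hb
  have hb3 : 3 < b := by rw [hb]; linarith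
  -- the bound
  let r : ℕ → ℝ := fun n => ((n : ℝ) + 1) ^ (-(b / 3))
  have hr0 : ∀ n, 0 ≤ r n := fun n => by positivity
  let q : Ix → ℝ := fun κ => r κ.1 * 1
  have hrs : Summable r := by
    have h1 : Summable fun n : ℕ => ((n : ℝ)) ^ (-(b / 3)) := by
      rw [Real.summable_nat_rpow]; linarith
    have h2 := (summable_nat_add_iff 1).2 h1
    refine h2.congr fun n => ?_
    show ((n + 1 : ℕ) : ℝ) ^ (-(b / 3)) = ((n : ℝ) + 1) ^ (-(b / 3))
    push_cast
    rfl
  have hqs : Summable q :=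
    hrs.mul_of_nonneg (g := fun _ : Bool => (1 : ℝ)) (Summable.of_finite) hr0 (fun _ => zero_le_one)
  have hq0 : ∀ κ, 0 ≤ q κ := fun κ => mul_nonneg (hr0 _) zero_le_one
  have hF : Summable fun t : Ix × Ix × Ix => 2 * D * (q t.1 * (q t.2.1 * q t.2.2)) := by
    refine Summable.mul_left _ ?_
    exact hqs.mul_of_nonneg (hqs.mul_of_nonneg hqs hq0 hq0) hq0
      (fun x => mul_nonneg (hq0 _) (hq0 _))
  have key : ∀ t : Ix × Ix × Ix,
      μ {ω | near lam (fun j => mu lam j ^ σ * Z j ω) t.1 t.2.1 t.2.2} ≤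
        ENNReal.ofReal (2 * D * (q t.1 * (q t.2.1 * q t.2.2))) := by
    rintro ⟨κ, l, m⟩
    simp only
    by_cases hs : same κ l m
    · have : {ω | near lam (fun j => mu lam j ^ σ * Z j ω) κ l m} = ∅ := by
        ext ω; simp [near, hs]
      rw [this, measure_empty]; exact bot_le
    by_cases hre : res κ l m
    · have : {ω | near lam (fun j => mu lam j ^ σ * Z j ω) κ l m} = ∅ := by
        ext ω; simp [near, hre]
      rw [this, measure_empty]; exact bot_le
    -- the largest plane
    obtain ⟨p, hp, hpm⟩ : ∃ p ∈ PP κ l m, mu lam p = mx lam κ l m := by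
      unfold mx
      rcases max_choice (mu lam κ.1) (max (mu lam l.1) (mu lam m.1)) with h | h
      · exact ⟨κ.1, by simp [PP], h.symm⟩
      · rcases max_choice (mu lam l.1) (mu lam m.1) with h' | h'
        · exact ⟨l.1, by simp [PP], by rw [h, h']⟩
        · exact ⟨m.1, by simp [PP], by rw [h, h']⟩
    set M := mx lam κ l m with hM
    have hMk : mu lam κ.1 ≤ M := le_max_left _ _
    have hMl : mu lam l.1 ≤ M := (le_max_left _ _).trans (le_max_right _ _)
    have hMm : mu lam m.1 ≤ M := (le_max_right _ _).trans (le_max_right _ _)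
    have hM1 : 1 ≤ M := by
      have := mu_ge hlam κ.1
      have h3 : (0 : ℝ) ≤ κ.1 := Nat.cast_nonneg _
      linarith
    have hM0 : 0 < M := by linarith
    set c : ℕ → ℝ := fun j => ee κ l m j * mu lam j ^ σ with hc
    let f : ℕ → Ω → ℝ := fun j => (fun x => c j * x) ∘ Z j
    have hfI : iIndepFun f μ := hI.comp (fun j x => c j * x) (fun j => measurable_const_mul _)
    have hfm : ∀ j, Measurable (f j) := fun j => (hZ j).const_mul (c j)
    have hind := hfI.indepFun_finsetSum_of_notMem hfm (Finset.notMem_erase p (PP κ l m))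
    have hcp : 1 ≤ |ee κ l m p| := ee_ge κ l m hre p hp
    have hcabs : M ^ σ ≤ |c p| := by
      rw [hc]
      simp only
      rw [abs_mul, hpm, abs_of_pos (Real.rpow_pos_of_pos hM0 σ)]
      have h5 := Real.rpow_pos_of_pos hM0 σ
      nlinarith
    have hc0 : 0 < |c p| := lt_of_lt_of_le (Real.rpow_pos_of_pos hM0 σ) hcabs
    have hcne : c p ≠ 0 := abs_pos.mp hc0
    -- density of `c_p Z_p`
    have hdens : ∀ r s, r ≤ s → μ {ω | f p ω ∈ Icc r s} ≤ ENNReal.ofReal (D / |c p| * (s - r)) := by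
      intro r s hrs'
      rcases lt_or_gt_of_ne hcne with hneg | hpos
      · have h1 := hDens p (s / c p) (r / c p) (div_le_div_of_nonpos_of_le hneg.le hrs')
        have h2 : {ω | f p ω ∈ Icc r s} ⊆ {ω | Z p ω ∈ Icc (s / c p) (r / c p)} := by
          intro ω hω
          have h3 : r ≤ c p * Z p ω ∧ c p * Z p ω ≤ s := hω
          refine ⟨?_, ?_⟩
          · rw [div_le_iff_of_neg hneg, mul_comm]; exact h3.2
          · rw [le_div_iff_of_neg hneg, mul_comm]; exact h3.1
        refine (measure_mono h2).trans (h1.trans (le_of_eq ?_))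
        congr 1
        rw [abs_of_neg hneg]
        field_simp
        ring
      · have h1 := hDens p (r / c p) (s / c p) (div_le_div_of_nonneg_right hrs' hpos.le)
        have h2 : {ω | f p ω ∈ Icc r s} ⊆ {ω | Z p ω ∈ Icc (r / c p) (s / c p)} := by
          intro ω hω
          have h3 : r ≤ c p * Z p ω ∧ c p * Z p ω ≤ s := hω
          refine ⟨?_, ?_⟩
          · rw [div_le_iff₀ hpos, mul_comm]; exact h3.1
          · rw [le_div_iff₀ hpos, mul_comm]; exact h3.2
        refine (measure_mono h2).trans (h1.trans (le_of_eq ?_))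
        congr 1
        rw [abs_of_pos hpos]
        ring
    have hsumm : Measurable (∑ j ∈ (PP κ l m).erase p, f j) := by
      have h9 : Measurable fun ω => ∑ j ∈ (PP κ l m).erase p, f j ω :=
        Finset.measurable_sum _ fun j _ => hfm j
      convert h9 using 1
      ext ω
      rw [Finset.sum_apply]
    have hconc := conc μ (∑ j ∈ (PP κ l m).erase p, f j) (f p)
      hsumm (hfm p) hind (D / |c p|) hdens (M ^ 20)
      (by positivity)
    have hsub : {ω | near lam (fun j => mu lam j ^ σ * Z j ω) κ l m} ⊆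
        {ω | |f p ω + (∑ j ∈ (PP κ l m).erase p, f j) ω| < M ^ 20} := by
      intro ω hω
      have h1 := hω.2.2
      rw [Lm_eq] at h1
      show |f p ω + (∑ j ∈ (PP κ l m).erase p, f j) ω| < M ^ 20
      rw [Finset.sum_apply, Finset.add_sum_erase _ (fun j => f j ω) hp]
      refine lt_of_eq_of_lt ?_ h1
      congr 1
      refine Finset.sum_congr rfl fun j _ => ?_
      show c j * Z j ω = _
      rw [hc]; ring
    refine (measure_mono hsub).trans (hconc.trans (ENNReal.ofReal_le_ofReal ?_))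
    -- the numerical bound
    have h1 : D / |c p| * (2 * M ^ 20) ≤ 2 * D * M ^ (-b) := by
      have h2 : D / |c p| ≤ D / M ^ σ := div_le_div_of_nonneg_left hD0 (Real.rpow_pos_of_pos hM0 σ) hcabs
      have h3 : D / M ^ σ * (2 * M ^ 20) = 2 * D * M ^ (-b) := by
        rw [hb, show -(σ - 20) = (20 : ℝ) - σ by ring, Real.rpow_sub hM0,
          show (20 : ℝ) = ((20 : ℕ) : ℝ) by norm_num, Real.rpow_natCast]
        ring
      rw [← h3]
      exact mul_le_mul_of_nonneg_right h2 (by positivity)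
    refine h1.trans (mul_le_mul_of_nonneg_left ?_ (by linarith))
    have hone : ∀ j : ℕ, mu lam j ≤ M → M ^ (-(b / 3)) ≤ r j := by
      intro j hj
      refine Real.rpow_le_rpow_of_nonpos (by positivity) ((mu_ge hlam j).trans hj) (by linarith)
    have h4 : M ^ (-b) = M ^ (-(b / 3)) * (M ^ (-(b / 3)) * M ^ (-(b / 3))) := by
      rw [← Real.rpow_add hM0, ← Real.rpow_add hM0]
      congr 1; ring
    rw [h4]
    have h0 : 0 ≤ M ^ (-(b / 3)) := by positivity
    show _ ≤ (r κ.1 * 1) * ((r l.1 * 1) * (r m.1 * 1))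
    rw [mul_one, mul_one, mul_one]
    exact mul_le_mul (hone _ hMk) (mul_le_mul (hone _ hMl) (hone _ hMm) h0 (hr0 _))
      (mul_nonneg h0 h0) (hr0 _)
  have hfin : ∑' t : Ix × Ix × Ix,
      μ {ω | near lam (fun j => mu lam j ^ σ * Z j ω) t.1 t.2.1 t.2.2} ≠ ⊤ :=
    ne_top_of_le_ne_top hF.tsum_ofReal_ne_top (ENNReal.tsum_le_tsum key)
  exact ae_finite_setOfPred_mem hfin

end Pool.Agent.U401.DD
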